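import Mathlib
import Pool.Agent.TH314.CSD.Scales
import Pool.Agent.R503.CSD.Loc
import Pool.Agent.U787.LD3

/-! # MP_edeaa2_an: the number of independent limit values of a counterexample

Let `d ≥ 3`, let `F h` be the product of the linear forms given by the rows of `h`, and let
`OrbitClosure g` be the set of the limits of the matrices `diag(a) g γ`, `a` positive of product one,
`γ` integral of determinant `±1`. For integer points `x 1, ..., x m` we consider the vectors
`(F h (x 1), ..., F h (x m))` of limit values, `h` in `OrbitClosure g`.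

1. Let `g` be a counterexample to the conjecture of Cassels and Swinnerton-Dyer and `h₀` a recurrent
   element of its orbit closure. There is a divisor `s > 1` of `d` with the following properties.
   (a) For every `h₁` in `OrbitClosure h₀` there are `d (s - 1)` integer points and a neighbourhood
   `W` of `h₁` so that the vectors of limit values at these points are in general position in a
   strong sense: given countably many analytic functions, not identically zero on their connected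
   open domains, the `h` in `W ∩ OrbitClosure h₀` whose vector is a zero of none of them are dense in
   `W ∩ OrbitClosure h₀`; and for every countable subfield `k` of `ℝ` so are those for which the
   `d (s - 1)` limit values are algebraically independent over `k`.
   (b) The number is best possible: there is a countable subfield `k` over which any
   `d (s - 1) + 1` values of any `h` in `OrbitClosure h₀` are algebraically dependent.
2. Let `p` be the smallest prime factor of `d`, and let `F g` be bounded away from zero at the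
   nonzero integer points. Then `F g` is proportional to an integral form if and only if there is a
   countable subfield `k` over which any `d (p - 1)` limit values (the values at `d (p - 1)` integer
   points of one `h` in `OrbitClosure g`) are algebraically dependent. In that case there is a
   countable subfield which contains all limit values.
3. The conjecture in dimension `d` is equivalent to: if `F g` is bounded away from zero, then there
   is such a field. -/

set_option autoImplicit false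

open Filter Topology

namespace Pool.Agent.Results.MP_edeaa2_an.IndependentValues

variable {d : ℕ}

/-- the product of the linear forms given by the rows of `h`, at an integer point -/
noncomputable def F (h : Matrix (Fin d) (Fin d) ℝ) (x : Fin d → ℤ) : ℝ :=
  ∏ i : Fin d, ∑ j : Fin d, h i j * (x j : ℝ)

/-- the product of the linear forms is proportional to a form with integer coefficients -/
def PropInt (h : Matrix (Fin d) (Fin d) ℝ) : Prop :=
  ∃ c : ℝ, c ≠ 0 ∧ ∀ m : Fin d →₀ ℕ, ∃ z : ℤ, MvPolynomial.coeff m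
    (c • (∏ i : Fin d, ∑ j : Fin d,
      MvPolynomial.C (h i j) * MvPolynomial.X j : MvPolynomial (Fin d) ℝ)) = (z : ℝ)

/-- the product of the linear forms is bounded away from zero at the nonzero integer points -/
def BoundedBelow (h : Matrix (Fin d) (Fin d) ℝ) : Prop :=
  ∃ ν : ℝ, 0 < ν ∧ ∀ x : Fin d → ℤ, x ≠ 0 → ν ≤ |F h x|

/-- The closure of the set of matrices `diag(a) g γ` with `a` positive of product one and `γ`
integral of determinant `±1`. -/
def OrbitClosure (g : Matrix (Fin d) (Fin d) ℝ) : Set (Matrix (Fin d) (Fin d) ℝ) :=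
  closure {h | ∃ (a : Fin d → ℝ) (γ : Matrix (Fin d) (Fin d) ℤ), (∀ i, 0 < a i) ∧ ∏ i, a i = 1 ∧
    |γ.det| = 1 ∧ h = Matrix.diagonal a * g * γ.map (Int.cast : ℤ → ℝ)}

/-- The orbit closure of `h` is minimal. -/
def Recurrent (h : Matrix (Fin d) (Fin d) ℝ) : Prop :=
  ∀ h' ∈ OrbitClosure h, h ∈ OrbitClosure h'

/-- the vector of the values at the points `x a` -/
noncomputable def vals {m : ℕ} (h : Matrix (Fin d) (Fin d) ℝ) (x : Fin m → Fin d → ℤ) :
    Fin m → ℝ := fun a => F h (x a)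

lemma closure_eq (g : Matrix (Fin d) (Fin d) ℝ) : OrbitClosure g = closure (H715R2.Orb g) := by
  unfold OrbitClosure H715R2.Orb
  congr 1
  ext h
  constructor
  · rintro ⟨a, γ, ha0, ha1, hγ, hh⟩
    exact ⟨a, γ, ha0, ha1, Int.isUnit_iff_abs_eq.2 hγ, hh⟩
  · rintro ⟨a, γ, ha0, ha1, hγ, hh⟩
    exact ⟨a, γ, ha0, ha1, Int.isUnit_iff_abs_eq.1 hγ, hh⟩

lemma recurrent_iff (h : Matrix (Fin d) (Fin d) ℝ) :
    Recurrent h ↔ TH314.CSD.Recurrent h := by
  unfold Recurrent TH314.CSD.Recurrent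
  simp only [closure_eq]

lemma minB_of_recurrent {h : Matrix (Fin d) (Fin d) ℝ} (hh : TH314.CSD.Recurrent h) :
    Y327.MinB id (closure (H715R2.Orb h)) := by
  refine ⟨isClosed_closure, ⟨h, subset_closure (H715R2.mem_orb_self h)⟩,
    Y327.invB_of_inv (TH314.CSD.inv_closure h) id, fun Z hZ hZc hZne hZinv => ?_⟩
  obtain ⟨h', hh'⟩ := hZne
  refine subset_antisymm hZ ?_
  have h1 : closure (H715R2.Orb h') ⊆ Z := by
    refine closure_minimal ?_ hZc
    rintro _ ⟨a, γ, ha0, ha1, hγ, rfl⟩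
    exact hZinv h' hh' a γ ⟨ha0, ha1, fun i j hij => by rw [show i = j from hij]⟩ hγ
  exact (TH314.CSD.orb_closure_trans (hh h' (hZ hh'))).trans h1

lemma exists_min (hd : 0 < d) {g : Matrix (Fin d) (Fin d) ℝ} (hg : g.det ≠ 0) {ν : ℝ}
    (hν : 0 < ν) (hF : ∀ x : Fin d → ℤ, x ≠ 0 → ν ≤ |F g x|) :
    ∃ M ⊆ closure (H715R2.Orb g), Y327.MinB id M :=
  Y327.exists_minB hd id (abs_pos.2 hg) hν isClosed_closure
    ⟨g, subset_closure (H715R2.mem_orb_self g)⟩
    (Y327.invB_of_inv (TH314.CSD.inv_closure g) id)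
    (fun _ hh => H715R2.abs_det_closure hh) (fun _ hh => H715R2.hasNu_closure hF hh)

/-- the sizes of the classes of a minimal set -/
lemma sizes (hd : 3 ≤ d) {g : Matrix (Fin d) (Fin d) ℝ} (hint : ¬ PropInt g) {ν : ℝ}
    {M : Set (Matrix (Fin d) (Fin d) ℝ)} (D : U787.LD.DatB ν M g) :
    ∃ s : ℕ, 1 < s ∧ s ∣ d ∧ ∀ h ∈ M, (∀ i, Nat.card {j // Y327.Sam h i j} = s) ∧
      Nat.card (U787.LD.Pr (Y327.Sam h)) = d * (s - 1) := by
  classical
  have hd0 : 0 < d := by omega
  have hV : 0 < |g.det| := abs_pos.2 D.det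
  have hMdet : ∀ h ∈ M, |h.det| = |g.det| := fun h hh => H715R2.abs_det_closure (D.hMg hh)
  have hu : ∀ h ∈ M, IsUnit h.det := fun h hh => by
    rw [isUnit_iff_ne_zero, ← abs_ne_zero, hMdet h hh, abs_ne_zero]
    exact D.det
  obtain ⟨h₀, hh₀⟩ := D.hM.ne
  obtain ⟨s, hs1, hs2⟩ := Y327.class_sizes hd D.det D.hν D.nu D.hMg D.hM hh₀ (hu h₀ hh₀)
  refine ⟨s, ?_, ⟨_, hs1.symm⟩, fun h hh => ?_⟩
  · set i₀ : Fin d := ⟨0, hd0⟩ with hi₀
    obtain ⟨j, hji, hj⟩ := Y327.class_nontrivial hd D.det D.hν D.nu hint D.hMg D.hM hh₀ i₀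
    rw [← hs2 i₀, Nat.card_eq_fintype_card, Fintype.one_lt_card_iff]
    exact ⟨⟨i₀, Y327.Sam.refl _ _⟩, ⟨j, hj⟩, fun h => hji (congrArg Subtype.val h).symm⟩
  · have hsame : ∀ i j, Y327.Sam h i j ↔ Y327.Sam h₀ i j := fun i j =>
      ⟨fun hs => Y327.sam_transfer hV hMdet D.hM hh₀ hh hs,
        fun hs => Y327.sam_transfer hV hMdet D.hM hh hh₀ hs⟩
    have hs3 : ∀ i, Nat.card {j // Y327.Sam h i j} = s := by
      intro i
      simp only [hsame]
      exact hs2 i
    refine ⟨hs3, ?_⟩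
    have e : U787.LD.Pr (Y327.Sam h) ≃ Σ i : Fin d, {j : Fin d // i ≠ j ∧ Y327.Sam h i j} :=
      { toFun := fun a => ⟨a.1.1, a.1.2, a.2⟩
        invFun := fun b => ⟨(b.1, b.2.1), b.2.2⟩
        left_inv := fun _ => rfl
        right_inv := fun _ => rfl }
    rw [Nat.card_eq_fintype_card, Fintype.card_congr e, Fintype.card_sigma]
    have h1 : ∀ i : Fin d, Fintype.card {j : Fin d // i ≠ j ∧ Y327.Sam h i j} = s - 1 := by
      intro i
      have h2 := hs3 i
      rw [Nat.card_eq_fintype_card, Fintype.card_subtype] at h2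
      rw [Fintype.card_subtype]
      have h3 : (Finset.univ.filter fun j => i ≠ j ∧ Y327.Sam h i j) =
          (Finset.univ.filter fun j => Y327.Sam h i j).erase i := by
        ext j
        simp only [Finset.mem_filter, Finset.mem_univ, true_and, Finset.mem_erase]
        tauto
      rw [h3, Finset.card_erase_of_mem (by simp [Y327.Sam.refl]), h2]
    simp only [h1]
    rw [Finset.sum_const, Finset.card_univ, Fintype.card_fin, smul_eq_mul]

/-- full points near an element of the minimal set -/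
lemma exists_pts (hd : 3 ≤ d) {g : Matrix (Fin d) (Fin d) ℝ} {ν : ℝ}
    {M : Set (Matrix (Fin d) (Fin d) ℝ)} (D : U787.LD.DatB ν M g)
    {h₁ : Matrix (Fin d) (Fin d) ℝ} (hh₁ : h₁ ∈ M) {N : ℕ}
    (hN : Nat.card (U787.LD.Pr (Y327.Sam h₁)) = N) :
    ∃ (x : Fin N → Fin d → ℤ) (W : Set (Fin d → Fin d → ℝ)), IsOpen W ∧
      (h₁ : Fin d → Fin d → ℝ) ∈ W ∧ ∀ h ∈ W, U787.LD.Full (Y327.Sam h₁) x h := by
  have hdet : h₁.det ≠ 0 := by
    rw [← abs_ne_zero, H715R2.abs_det_closure (D.hMg hh₁), abs_ne_zero]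
    exact D.det
  have hMnu : ∀ h ∈ M, H715R2.HasNu h ν := fun h hh => H715R2.hasNu_closure D.nu (D.hMg hh)
  obtain ⟨x, hx⟩ := U787.LD.exists_full hdet (fun y i hy =>
    R503.CSD.lf_ne D.hν hMnu (h := fun i j => h₁ i j) hh₁ i hy) (by omega) _ hN
  obtain ⟨W, hW, hWo, hWh⟩ := eventually_nhds_iff.1 hx
  exact ⟨x, W, hWo, hWh, hW⟩

theorem result (d : ℕ) (hd : 3 ≤ d) :
    -- 1. the limit values of a counterexample
    (∀ g : Matrix (Fin d) (Fin d) ℝ, g.det ≠ 0 → ¬ PropInt g → BoundedBelow g →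
      ∀ h₀ ∈ OrbitClosure g, Recurrent h₀ → ∃ s : ℕ, 1 < s ∧ s ∣ d ∧
        (∀ h₁ ∈ OrbitClosure h₀, ∃ (x : Fin (d * (s - 1)) → Fin d → ℤ)
          (W : Set (Matrix (Fin d) (Fin d) ℝ)), IsOpen W ∧ h₁ ∈ W ∧
          ∀ U : Set (Matrix (Fin d) (Fin d) ℝ), IsOpen U → (U ∩ W ∩ OrbitClosure h₀).Nonempty →
            (∀ (V : ℕ → Set (Fin (d * (s - 1)) → ℝ)) (φ : ℕ → (Fin (d * (s - 1)) → ℝ) → ℝ),
              (∀ n, IsOpen (V n) ∧ IsConnected (V n) ∧ AnalyticOnNhd ℝ (φ n) (V n) ∧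
                ∃ v ∈ V n, φ n v ≠ 0) →
              ∃ h ∈ U ∩ W ∩ OrbitClosure h₀, ∀ n, ¬ (vals h x ∈ V n ∧ φ n (vals h x) = 0)) ∧
            ∀ k : Subfield ℝ, (k : Set ℝ).Countable →
              ∃ h ∈ U ∩ W ∩ OrbitClosure h₀, AlgebraicIndependent k (vals h x)) ∧
        ∃ k : Subfield ℝ, (k : Set ℝ).Countable ∧ ∀ h ∈ OrbitClosure h₀,
          ∀ x : Fin (d * (s - 1) + 1) → Fin d → ℤ, ¬ AlgebraicIndependent k (vals h x)) ∧
    -- 2. a criterion
    (∀ g : Matrix (Fin d) (Fin d) ℝ, g.det ≠ 0 → BoundedBelow g →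
      (PropInt g ↔ ∃ k : Subfield ℝ, (k : Set ℝ).Countable ∧ ∀ h ∈ OrbitClosure g,
        ∀ x : Fin (d * (d.minFac - 1)) → Fin d → ℤ, ¬ AlgebraicIndependent k (vals h x)) ∧
      (PropInt g → ∃ k : Subfield ℝ, (k : Set ℝ).Countable ∧ ∀ h ∈ OrbitClosure g,
        ∀ x : Fin d → ℤ, F h x ∈ k)) ∧
    -- 3. the conjecture
    ((∀ g : Matrix (Fin d) (Fin d) ℝ, g.det ≠ 0 → BoundedBelow g → PropInt g) ↔
      ∀ g : Matrix (Fin d) (Fin d) ℝ, g.det ≠ 0 → BoundedBelow g →
        ∃ k : Subfield ℝ, (k : Set ℝ).Countable ∧ ∀ h ∈ OrbitClosure g,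
          ∀ x : Fin (d * (d.minFac - 1)) → Fin d → ℤ, ¬ AlgebraicIndependent k (vals h x)) := by
  classical
  have hd0 : 0 < d := by omega
  have hp1 : 1 < d.minFac := (Nat.minFac_prime (by omega)).one_lt
  have hN0 : 0 < d * (d.minFac - 1) := Nat.mul_pos hd0 (by omega)
  -- the values of integral forms
  have hval : ∀ g : Matrix (Fin d) (Fin d) ℝ, PropInt g → ∃ k : Subfield ℝ,
      (k : Set ℝ).Countable ∧ ∀ h ∈ OrbitClosure g, ∀ x : Fin d → ℤ, F h x ∈ k := by
    intro g hP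
    obtain ⟨c, -, hc⟩ := R503.CSD.values_closure hP
    refine ⟨Subfield.closure {c}, ?_, fun h hh x => ?_⟩
    · have h1 : Cardinal.mk (Subfield.closure {c} : Subfield ℝ) ≤ Cardinal.aleph0 := by
        refine (Subfield.cardinalMk_closure_le_max ({c} : Set ℝ)).trans (max_le ?_ le_rfl)
        exact Cardinal.mk_le_aleph0_iff.2 (Set.countable_singleton c).to_subtype
      exact Set.countable_coe_iff.1 (Cardinal.mk_le_aleph0_iff.1 h1)
    · rw [closure_eq] at hh
      obtain ⟨z, hz⟩ := hc h hh x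
      have h1 : F h x = c * z := hz
      rw [h1]
      exact mul_mem (Subfield.subset_closure rfl) (intCast_mem _ z)
  have hdep : ∀ g : Matrix (Fin d) (Fin d) ℝ, PropInt g → ∃ k : Subfield ℝ,
      (k : Set ℝ).Countable ∧ ∀ h ∈ OrbitClosure g,
        ∀ x : Fin (d * (d.minFac - 1)) → Fin d → ℤ, ¬ AlgebraicIndependent k (vals h x) := by
    intro g hP
    obtain ⟨k, hk, hv⟩ := hval g hP
    refine ⟨k, hk, fun h hh x hI => ?_⟩
    have h1 := hI.transcendental ⟨0, hN0⟩
    exact h1 (isAlgebraic_algebraMap (⟨_, hv h hh (x ⟨0, hN0⟩)⟩ : k))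
  -- the counterexamples
  have hcore : ∀ g : Matrix (Fin d) (Fin d) ℝ, g.det ≠ 0 → BoundedBelow g → ¬ PropInt g →
      ∀ k : Subfield ℝ, (k : Set ℝ).Countable → ∃ h ∈ OrbitClosure g,
        ∃ x : Fin (d * (d.minFac - 1)) → Fin d → ℤ, AlgebraicIndependent k (vals h x) := by
    rintro g hg ⟨ν, hν, hF⟩ hint k hk
    obtain ⟨M, hMg, hM⟩ := exists_min hd0 hg hν hF
    have D : U787.LD.DatB ν M g := ⟨hd, hν, hg, hF, hMg, hM⟩
    obtain ⟨s, hs1, hsd, hs⟩ := sizes hd hint D
    obtain ⟨h₁, hh₁⟩ := hM.ne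
    obtain ⟨x, W, hW, hWh, hfull⟩ := exists_pts hd D hh₁ (hs h₁ hh₁).2
    obtain ⟨h, -, -, hhM, hI⟩ := U787.LD.alg_block D hh₁ hW (fun h hh _ => hfull h hh) k hk
      isOpen_univ ⟨h₁, Set.mem_univ _, hWh, hh₁⟩
    have hle : d * (d.minFac - 1) ≤ d * (s - 1) :=
      Nat.mul_le_mul_left _ (Nat.sub_le_sub_right (Nat.minFac_le_of_dvd hs1 hsd) 1)
    refine ⟨Matrix.of h, by rw [closure_eq]; exact hMg hhM, fun a => x (Fin.castLE hle a), ?_⟩
    exact hI.comp (Fin.castLE hle) (Fin.castLE_injective hle)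
  refine ⟨?_, ?_, ?_⟩
  · rintro g hg hint ⟨ν, hν, hF⟩ h₀ hh₀ hrec
    rw [closure_eq] at hh₀
    have hM := minB_of_recurrent ((recurrent_iff h₀).1 hrec)
    have hMg : closure (H715R2.Orb h₀) ⊆ closure (H715R2.Orb g) :=
      TH314.CSD.orb_closure_trans hh₀
    have D : U787.LD.DatB ν (closure (H715R2.Orb h₀)) g := ⟨hd, hν, hg, hF, hMg, hM⟩
    obtain ⟨s, hs1, hsd, hs⟩ := sizes hd hint D
    rw [closure_eq]
    have hh₀' : h₀ ∈ closure (H715R2.Orb h₀) := subset_closure (H715R2.mem_orb_self h₀)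
    refine ⟨s, hs1, hsd, fun h₁ hh₁ => ?_, U787.LD.entf h₀, U787.LD.countable_entf h₀,
      fun h hh x => ?_⟩
    · obtain ⟨x, W, hW, hWh, hfull⟩ := exists_pts hd D hh₁ (hs h₁ hh₁).2
      refine ⟨x, W, hW, hWh, fun U hU hne => ⟨fun V φ hVφ => ?_, fun k hk => ?_⟩⟩
      · obtain ⟨h, ⟨hhU, hhW⟩, hhM⟩ := hne
        obtain ⟨h', hh'U, hh'W, hh'M, hh'⟩ := U787.LD.baire_block D hh₁ hW
          (fun h hh _ => hfull h hh) (fun n => (hVφ n).1) (fun n => (hVφ n).2.1.isPreconnected)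
          (fun n => (hVφ n).2.2.1) (fun n => (hVφ n).2.2.2) hU ⟨h, hhU, hhW, hhM⟩
        exact ⟨h', ⟨⟨hh'U, hh'W⟩, hh'M⟩, hh'⟩
      · obtain ⟨h, ⟨hhU, hhW⟩, hhM⟩ := hne
        obtain ⟨h', hh'U, hh'W, hh'M, hh'⟩ := U787.LD.alg_block D hh₁ hW
          (fun h hh _ => hfull h hh) k hk hU ⟨h, hhU, hhW, hhM⟩
        exact ⟨h', ⟨⟨hh'U, hh'W⟩, hh'M⟩, hh'⟩
    · exact U787.LD.upper D hh₀' (hs h₀ hh₀').1 (h := fun i j => h i j) hh (Nat.lt_succ_self _) x
  · intro g hg hb
    refine ⟨⟨fun hP => hdep g hP, fun h => ?_⟩, fun hP => hval g hP⟩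
    by_contra hint
    obtain ⟨k, hk, hno⟩ := h
    obtain ⟨h, hh, x, hI⟩ := hcore g hg hb hint k hk
    exact hno h hh x hI
  · constructor
    · intro hQ g hg hb
      exact hdep g (hQ g hg hb)
    · intro hQ g hg hb
      by_contra hint
      obtain ⟨k, hk, hno⟩ := hQ g hg hb
      obtain ⟨h, hh, x, hI⟩ := hcore g hg hb hint k hk
      exact hno h hh x hI

end Pool.Agent.Results.MP_edeaa2_an.IndependentValues
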