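import Mathlib
import Pool.Agent.U514.CSDPow
import Pool.Agent.U514.MorseHedlund

/-! # MP_edeaa2_an: long powers and short periods occur only for finitely many classes of forms

Let `g` be a real `d × d` matrix (`d ≥ 3`) with determinant `±δ` and `F` the product of the linear
forms given by its rows, `|F| ≥ ν > 0` at the nonzero integer points. There is a constant
`C = C(d, δ, ν)` such that for every diagonal matrix `a` of determinant `±1` there is `V ∈ GL_d(ℤ)` for
which the entries of `a g V` are at most `C` in absolute value. We say that a matrix `W` of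
determinant `±1` is reduced for `g` up to `C` if the entries of `a g W` are at most `C` in absolute
value for some diagonal matrix `a` of determinant `±1`.

(A) For all `C, B` there are `N` and a finite set `S` of such matrices, whose forms are all
proportional to integral forms, with the following property. If `g` is not equivalent to an element
of `S` (under diagonal matrices of determinant `±1` and `GL_d(ℤ)`; then the forms are equal up to the
sign and a substitution in `GL_d(ℤ)`), then there are no `V, U ∈ GL_d(ℤ)` such that the entries of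
`U` are at most `B`, the matrices `V, V U, V U ^ 2, …, V U ^ N` are all reduced for `g` up to `C`, and

* `d` is prime and `U` has infinite order, or
* the number of complex eigenvalues of `U` (with multiplicity) of some absolute value is prime to `d`.

The diagonal matrices belonging to the different powers are arbitrary.

(B) Let `a` be a positive diagonal matrix of determinant `1`, `a ≠ 1` and `d` prime, or such that
some value occurs among its diagonal entries with a multiplicity prime to `d`. The code of a family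
`V(m)` for which the entries of `a ^ m g V(m)` are at most `C` is the sequence of the matrices
`V(m)⁻¹ V(m+1)`; there are only finitely many possible symbols. For all `C, n` there are `M` and a
finite set `S` as above such that, if `g` is not equivalent to an element of `S`, every window of
length `M` of every such code contains at least `n + 1` different blocks of length `n`.

Both hold for all counterexamples to the conjecture of Cassels and Swinnerton-Dyer with the same
`N`, `M`, and unconditionally for all forms which are proportional to integral forms outside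
finitely many classes. -/

set_option autoImplicit false

open Filter Topology

namespace Pool.Agent.Results.MP_edeaa2_an.LongPowers

/-- the product of the linear forms given by the rows of `g`, at an integer point -/
noncomputable def F {d : ℕ} (g : Matrix (Fin d) (Fin d) ℝ) (x : Fin d → ℤ) : ℝ :=
  ∏ i : Fin d, ∑ j : Fin d, g i j * (x j : ℝ)

/-- the form is proportional to an integral form -/
def Integral {d : ℕ} (g : Matrix (Fin d) (Fin d) ℝ) : Prop :=
  ∃ c : ℝ, c ≠ 0 ∧ ∀ m : Fin d →₀ ℕ, ∃ z : ℤ, MvPolynomial.coeff m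
    (c • (∏ i : Fin d, ∑ j : Fin d,
      MvPolynomial.C (g i j) * MvPolynomial.X j : MvPolynomial (Fin d) ℝ)) = (z : ℝ)

/-- the matrices with absolute determinant `δ` and form at least `ν` in absolute value at the nonzero
integer points -/
def System (d : ℕ) (δ ν : ℝ) : Set (Matrix (Fin d) (Fin d) ℝ) :=
  {g | |g.det| = δ ∧ ∀ x : Fin d → ℤ, x ≠ 0 → ν ≤ |F g x|}

/-- `g` is obtained from `g'` by a diagonal matrix of determinant `±1` and an element of `GL_d(ℤ)` -/
def Equivalent {d : ℕ} (g g' : Matrix (Fin d) (Fin d) ℝ) : Prop :=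
  ∃ (c : Fin d → ℝ) (γ : Matrix (Fin d) (Fin d) ℤ), |∏ i, c i| = 1 ∧ |γ.det| = 1 ∧
    g = Matrix.diagonal c * g' * γ.map (Int.cast : ℤ → ℝ)

/-- `g` is equivalent to an element of `S` and its form is proportional to an integral form -/
def Exceptional {d : ℕ} (S : Set (Matrix (Fin d) (Fin d) ℝ)) (g : Matrix (Fin d) (Fin d) ℝ) : Prop :=
  Integral g ∧ ∃ g' ∈ S, Equivalent g g'

/-- `W` is reduced for `g` up to `C`: for some diagonal matrix `a` of determinant `±1` the entries of
`a g W` are at most `C` in absolute value. -/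
def Reduced {d : ℕ} (g : Matrix (Fin d) (Fin d) ℝ) (C : ℝ) (W : Matrix (Fin d) (Fin d) ℤ) : Prop :=
  ∃ a : Fin d → ℝ, |∏ i, a i| = 1 ∧
    ∀ i k, |(Matrix.diagonal a * g * W.map (Int.cast : ℤ → ℝ)) i k| ≤ C

/-- the number of complex eigenvalues of `U` of absolute value `r`, with multiplicity -/
noncomputable def modulusCount {d : ℕ} (U : Matrix (Fin d) (Fin d) ℤ) (r : ℝ) : ℕ :=
  Multiset.card ((U.map (Int.castRingHom ℂ)).charpoly.roots.filter fun z => ‖z‖ = r)

/-- `d` is prime and `U` has infinite order, or the number of eigenvalues of some absolute value is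
prime to `d`. -/
def Ample {d : ℕ} (U : Matrix (Fin d) (Fin d) ℤ) : Prop :=
  (d.Prime ∧ ∀ n : ℕ, 0 < n → U ^ n ≠ 1) ∨ ∃ r : ℝ, Nat.Coprime (modulusCount U r) d

/-- `V m` has determinant `±1`, and the entries of `a ^ m g V(m)` are at most `C` in absolute
value. -/
def Good {d : ℕ} (g : Matrix (Fin d) (Fin d) ℝ) (a : Fin d → ℝ) (C : ℝ)
    (V : ℤ → Matrix (Fin d) (Fin d) ℤ) : Prop :=
  ∀ m : ℤ, |(V m).det| = 1 ∧ ∀ i k,
    |(Matrix.diagonal (fun i => a i ^ m) * g * (V m).map (Int.cast : ℤ → ℝ)) i k| ≤ C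

/-- the block of length `n` of the code at the position `m` -/
noncomputable def block {d : ℕ} (V : ℤ → Matrix (Fin d) (Fin d) ℤ) (n : ℕ) (m : ℤ) :
    Fin n → Matrix (Fin d) (Fin d) ℤ :=
  fun i => (V (m + (i : ℕ)))⁻¹ * V (m + (i : ℕ) + 1)

/-- there is a family for `g` and a window of length `M` with at most `n` blocks of length `n` -/
def Bad {d : ℕ} (a : Fin d → ℝ) (C : ℝ) (n : ℕ) (g : Matrix (Fin d) (Fin d) ℝ) (M : ℕ) : Prop :=
  ∃ V, Good g a C V ∧ ∃ m₀ : ℤ, ((Finset.Icc m₀ (m₀ + M)).image (block V n)).card ≤ n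

/-- sequences of bad matrices -/
theorem bad_seq {d : ℕ} (hd : 3 ≤ d) (a : Fin d → ℝ) (ha : ∀ i, 0 < a i)
    (ha1 : ∏ i, a i = 1) (hab : ∃ r : ℝ, Nat.Coprime (Finset.univ.filter fun i => a i = r).card d)
    {δ ν : ℝ} (hδ : 0 < δ) (hν : 0 < ν) (C : ℝ) (n : ℕ)
    (g : ℕ → Matrix (Fin d) (Fin d) ℝ) (N : ℕ → ℕ) (hN : ∀ i, i ≤ N i)
    (hg : ∀ i, |(g i).det| = δ) (hnu : ∀ i, H715R2.HasNu (g i) ν)
    (hbad : ∀ i, Bad a C n (g i) (N i)) :
    ∃ s : ℕ → ℕ, (∀ i, i ≤ s i) ∧ (∀ i, H715R2.PropInt (g (s i))) ∧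
      ∀ i j, Pool.Agent.N759.UC.Eqv (g (s i)) (g (s j)) := by
  classical
  choose V hV m₀ hwin using hbad
  have hu : ∀ i m, IsUnit (V i m) := fun i m =>
    (Matrix.isUnit_iff_isUnit_det _).2 (Int.isUnit_iff_abs_eq.2 (hV i m).1)
  choose U hU using hu
  -- a family with real parameters
  set D : (Fin 2 → ℤ) → Fin d → ℝ := fun z i =>
    Real.exp (((z 0 : ℝ) + Real.sqrt 2 * (z 1 : ℝ)) * Real.log (a i)) with hD
  have hDprod : ∀ z, ∏ i, D z i = 1 := by
    intro z
    simp only [hD]
    rw [← Real.exp_sum, ← Finset.mul_sum, ← Real.log_prod (fun i _ => (ha i).ne'), ha1,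
      Real.log_one, mul_zero, Real.exp_zero]
  obtain ⟨R, hR⟩ := H715R2.exists_bound (d := d) (by omega) δ ν hδ hν
  have hex : ∀ (i : ℕ) (z : Fin 2 → ℤ), ∃ W : (Matrix (Fin d) (Fin d) ℤ)ˣ, ∀ r k,
      |(Matrix.diagonal (D z) * g i * H715R2.zR (W : Matrix (Fin d) (Fin d) ℤ)) r k| ≤ R := by
    intro i z
    obtain ⟨γ, hγ, hγR⟩ := hR (Matrix.diagonal (D z) * g i)
      (by rw [Matrix.det_mul, Matrix.det_diagonal, hDprod, one_mul]; exact hg i) (fun x hx => by
        rw [H715R2.FF_diag_mul, hDprod, one_mul]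
        exact hnu i x hx)
    obtain ⟨W, hW⟩ := (Matrix.isUnit_iff_isUnit_det _).2 hγ
    exact ⟨W, fun r k => by rw [hW]; exact hγR r k⟩
  choose W hW using hex
  set V' : ℕ → (Fin 2 → ℤ) → (Matrix (Fin d) (Fin d) ℤ)ˣ := fun i z =>
    if z 1 = 0 then U i (z 0) else W i z with hV'
  have hD0 : ∀ z : Fin 2 → ℤ, z 1 = 0 → D z = fun i => a i ^ (z 0) := by
    intro z hz
    funext i
    simp only [hD, hz, Int.cast_zero, mul_zero, add_zero]
    rw [mul_comm, Real.exp_mul, Real.exp_log (ha i), Real.rpow_intCast]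
  have hirr : ∀ z : Fin 2 → ℤ, z ≠ 0 → (z 0 : ℝ) + Real.sqrt 2 * (z 1 : ℝ) ≠ 0 := by
    intro z hz h0
    apply hz
    have h1 : z 1 = 0 := by
      by_contra h1
      have h2 : (z 1 : ℝ) ≠ 0 := by exact_mod_cast h1
      apply irrational_sqrt_two.ne_rat (-(z 0 : ℚ) / (z 1 : ℚ))
      push_cast
      rw [eq_div_iff h2]
      linarith
    have h2 : z 0 = 0 := by
      rw [h1, Int.cast_zero, mul_zero, add_zero] at h0
      exact_mod_cast h0
    funext i
    fin_cases i
    · exact h2
    · exact h1
  refine Pool.Agent.N759.UC.seq_main hd hδ hν D (fun z i => Real.exp_pos _)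
    (fun z w i => by
      simp only [hD]
      rw [← Real.exp_add]
      congr 1
      simp only [Pi.add_apply, Int.cast_add]
      ring) hDprod
    (fun z hz => by
      obtain ⟨r, hr⟩ := hab
      have hrpos : 0 < r := by
        by_contra hcon
        have h0 : (Finset.univ.filter fun i => a i = r) = ∅ := by
          rw [Finset.filter_eq_empty_iff]
          intro i _ h1
          exact hcon (h1 ▸ ha i)
        rw [h0, Finset.card_empty, Nat.coprime_zero_left] at hr
        omega
      refine ⟨Real.exp (((z 0 : ℝ) + Real.sqrt 2 * (z 1 : ℝ)) * Real.log r), ?_⟩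
      have h1 : (Finset.univ.filter fun i => D z i =
          Real.exp (((z 0 : ℝ) + Real.sqrt 2 * (z 1 : ℝ)) * Real.log r))
          = Finset.univ.filter fun i => a i = r := by
        refine Finset.filter_congr fun i _ => ?_
        simp only [hD]
        rw [Real.exp_eq_exp]
        constructor
        · intro h2
          exact Real.log_injOn_pos (ha i) hrpos (mul_left_cancel₀ (hirr z hz) h2)
        · intro h2
          rw [h2]
      rwa [h1]) (C := max C R) (S' := n) g hg hnu V' (fun i z r k => ?_) (fun m => ?_)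
  · by_cases hz : z 1 = 0
    · simp only [hV', hz, if_true, hD0 z hz, hU]
      exact ((hV i (z 0)).2 r k).trans (le_max_left _ _)
    · simp only [hV', hz, if_false]
      exact (hW i z r k).trans (le_max_right _ _)
  · -- a long power
    set q : ℕ := m + 2 * n + n * m + n + 1 with hq
    have hNq : q ≤ N q := hN q
    obtain ⟨p, hp1, hpn, s, hs1, hs2, hper⟩ := Pool.Agent.U514.MH.mh
      (fun t : ℤ => (U q t)⁻¹ * U q (t + 1)) n (N q) (m₀ q) (by nlinarith) (by
        refine le_trans (le_of_eq ?_) (hwin q)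
        set e : (Fin n → (Matrix (Fin d) (Fin d) ℤ)ˣ) → (Fin n → Matrix (Fin d) (Fin d) ℤ) :=
          fun f i => (f i : Matrix (Fin d) (Fin d) ℤ) with he
        have hinj : Function.Injective e := fun f f' h => funext fun i =>
          Units.ext (congrFun h i)
        have hcomp : block (V q) n = e ∘ (Pool.Agent.U514.MH.blk
            (fun t : ℤ => (U q t)⁻¹ * U q (t + 1)) n) := by
          funext t i
          simp only [block, he, Function.comp, Pool.Agent.U514.MH.blk, Units.val_mul,
            Matrix.coe_units_inv, hU]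
        rw [hcomp, ← Finset.image_image, Finset.card_image_of_injective _ hinj])
    refine ⟨q, by omega, ![s, 0], ![(p : ℤ), 0], ?_, ?_, ?_⟩
    · intro h0
      have := congrFun h0 0
      simp at this
      omega
    · intro i
      fin_cases i
      · simp; omega
      · simp
    · intro j hj
      have hw := Pool.Agent.U514.MH.walk (U q) s p (m₀ q + N q) (fun t ht htp => by
        have h1 := hper t ht htp
        simpa using h1) j (by
          have h1 : (j : ℤ) * p ≤ n * m := by
            have h2 : j * p ≤ m * n := Nat.mul_le_mul hj hpn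
            have h3 : ((j * p : ℕ) : ℤ) ≤ ((m * n : ℕ) : ℤ) := by exact_mod_cast h2
            push_cast at h3
            linarith
          have h4 : (q : ℤ) ≤ N q := by exact_mod_cast hNq
          have h5 : (q : ℤ) = m + 2 * n + n * m + n + 1 := by rw [hq]; push_cast; ring
          linarith)
      have e0 : (![s, 0] : Fin 2 → ℤ) + j • ![(p : ℤ), 0] = ![s + j * p, 0] := by
        funext i
        fin_cases i <;> simp
      have e1 : (![s, 0] : Fin 2 → ℤ) + ![(p : ℤ), 0] = ![s + p, 0] := by
        funext i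
        fin_cases i <;> simp
      rw [e0, e1]
      simp only [hV', Matrix.cons_val_zero, Matrix.cons_val_one, if_true]
      exact hw

theorem result (d : ℕ) (hd : 3 ≤ d) (δ ν : ℝ) (hδ : 0 < δ) (hν : 0 < ν) :
    (∃ C : ℝ, ∀ g ∈ System d δ ν, ∀ a : Fin d → ℝ, |∏ i, a i| = 1 →
      ∃ V : Matrix (Fin d) (Fin d) ℤ, |V.det| = 1 ∧
        ∀ i k, |(Matrix.diagonal a * g * V.map (Int.cast : ℤ → ℝ)) i k| ≤ C) ∧
    (∀ (C : ℝ) (B : ℤ), ∃ (N : ℕ) (S : Set (Matrix (Fin d) (Fin d) ℝ)), S.Finite ∧
      (∀ g ∈ S, g ∈ System d δ ν ∧ Integral g) ∧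
      ∀ g ∈ System d δ ν, Exceptional S g ∨
        ∀ V U : Matrix (Fin d) (Fin d) ℤ, |V.det| = 1 → |U.det| = 1 → (∀ i k, |U i k| ≤ B) →
          Ample U → ∃ j : ℕ, j ≤ N ∧ ¬ Reduced g C (V * U ^ j)) ∧
    (∀ a : Fin d → ℝ, (∀ i, 0 < a i) → ∏ i, a i = 1 →
      ((d.Prime ∧ ∃ i, a i ≠ 1) ∨ ∃ r : ℝ, Nat.Coprime (Nat.card {i // a i = r}) d) →
      ∀ (C : ℝ) (n : ℕ), ∃ (M : ℕ) (S : Set (Matrix (Fin d) (Fin d) ℝ)), S.Finite ∧
        (∀ g ∈ S, g ∈ System d δ ν ∧ Integral g) ∧
        ∀ g ∈ System d δ ν, Exceptional S g ∨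
          ∀ V, Good g a C V → ∀ m₀ : ℤ,
            ((n + 1 : ℕ) : ℕ∞) ≤ {b | ∃ m : ℤ, m₀ ≤ m ∧ m ≤ m₀ + M ∧ b = block V n m}.encard) := by
  classical
  refine ⟨?_, fun C B => ?_, fun a ha ha1 hab C n => ?_⟩
  · obtain ⟨R, hR⟩ := H715R2.exists_bound (d := d) (by omega) δ ν hδ hν
    refine ⟨R, fun g hg a ha => ?_⟩
    obtain ⟨γ, hγ, hγR⟩ := hR (Matrix.diagonal a * g)
      (by rw [Matrix.det_mul, Matrix.det_diagonal, abs_mul, ha, one_mul]; exact hg.1) (fun x hx => by
        rw [H715R2.FF_diag_mul, abs_mul, ha, one_mul]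
        exact hg.2 x hx)
    exact ⟨γ, Int.isUnit_iff_abs_eq.1 hγ, hγR⟩
  · obtain ⟨N, S, hS, hSm, hN⟩ := Pool.Agent.N759.UC.finite_classes d δ ν
      (Pool.Agent.U514.CSDPow.BadPow C B)
      (fun g N hN hg hnu hbad => Pool.Agent.U514.CSDPow.pow_seq hd hδ hν C B g N hN hg hnu hbad)
    refine ⟨N, S, hS, fun g hg => ⟨⟨(hSm g hg).1, (hSm g hg).2.1⟩, (hSm g hg).2.2⟩,
      fun g hg => ?_⟩
    by_cases hbad : Pool.Agent.U514.CSDPow.BadPow C B g N
    · exact Or.inl (hN g hg.1 hg.2 hbad)
    right
    intro V U hV hU hUB hUa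
    by_contra hcon
    push Not at hcon
    exact hbad ⟨V, U, hV, hU, hUB, hUa, fun j hj => hcon j hj⟩
  · have hab' : ∃ r : ℝ, Nat.Coprime (Finset.univ.filter fun i => a i = r).card d := by
      rcases hab with ⟨hp, i, hi⟩ | ⟨r, hr⟩
      swap
      · refine ⟨r, ?_⟩
        rwa [Nat.card_eq_fintype_card, Fintype.card_subtype] at hr
      refine ⟨a i, ?_⟩
      have h1 : 0 < (Finset.univ.filter fun t => a t = a i).card :=
        Finset.card_pos.2 ⟨i, by simp⟩
      have h2 : (Finset.univ.filter fun t => a t = a i).card < d := by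
        have h3 : (Finset.univ.filter fun t => a t = a i) ⊂ Finset.univ := by
          refine ⟨Finset.subset_univ _, fun hsub => hi ?_⟩
          have h4 : ∀ t, a t = a i := fun t => (Finset.mem_filter.1 (hsub (Finset.mem_univ t))).2
          have h5 : a i ^ d = 1 := by
            rw [← ha1, Finset.prod_congr rfl fun t _ => h4 t, Finset.prod_const,
              Finset.card_univ, Fintype.card_fin]
          exact (pow_eq_one_iff_of_nonneg (ha i).le (by omega)).1 h5
        have h5 := Finset.card_lt_card h3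
        rwa [Finset.card_univ, Fintype.card_fin] at h5
      exact (Nat.coprime_of_lt_prime h1.ne' h2 hp).symm
    obtain ⟨M, S, hS, hSm, hM⟩ := Pool.Agent.N759.UC.finite_classes d δ ν (Bad a C n)
      (fun g N hN hg hnu hbad => bad_seq hd a ha ha1 hab' hδ hν C n g N hN hg hnu hbad)
    refine ⟨M, S, hS, fun g hg => ⟨⟨(hSm g hg).1, (hSm g hg).2.1⟩, (hSm g hg).2.2⟩,
      fun g hg => ?_⟩
    by_cases hbad : Bad a C n g M
    · exact Or.inl (hM g hg.1 hg.2 hbad)
    right
    intro V hV m₀
    have hlt : n + 1 ≤ ((Finset.Icc m₀ (m₀ + M)).image (block V n)).card := by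
      by_contra hcon
      exact hbad ⟨V, hV, m₀, by omega⟩
    have hset : {b | ∃ m : ℤ, m₀ ≤ m ∧ m ≤ m₀ + M ∧ b = block V n m}
        = ((Finset.Icc m₀ (m₀ + M)).image (block V n) : Finset _) := by
      ext b
      simp only [Set.mem_ofPred_eq, Finset.coe_image, Set.mem_image, Finset.coe_Icc, Set.mem_Icc]
      constructor
      · rintro ⟨m, h1, h2, rfl⟩
        exact ⟨m, ⟨h1, h2⟩, rfl⟩
      · rintro ⟨m, ⟨h1, h2⟩, rfl⟩
        exact ⟨m, h1, h2, rfl⟩
    rw [hset, Set.encard_coe_eq_coe_finsetCard]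
    exact_mod_cast hlt

end Pool.Agent.Results.MP_edeaa2_an.LongPowers
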