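import Pool.Agent.U9.LT.Kont
import Pool.Agent.U9.LT.Main

set_option autoImplicit false

/-! # MP_edeaa2_an: symmetric powers of binary lattices with substitutive continued fractions

Let `g` be a real invertible `2 × 2` matrix whose first row is proportional to `(α, 1)`, `α` irrational
(the second row is arbitrary), and let `Sym^k g`, `k ≥ 2`, be the matrix of the map
`P ↦ P((X,Y) g)` on binary forms of degree `k`; `SmallValues α k` says that the product of the linear
forms given by the rows of `Sym^k g ⊗ G`, for all these `g` and all real square matrices `G`, takes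
arbitrarily small values at nonzero integer points, as predicted by the conjecture of Cassels and
Swinnerton-Dyer.

Let the partial quotients of `α` be given by the letters of an infinite word `y 0` which is obtained
from `y 1` by a substitution `S 0`, `y 1` from `y 2` by `S 1`, and so on (an `S`-adic word; the
condition only concerns finite words, and the alphabets are arbitrary).  `down` is the image on level
`0`.  We show:

* `SmallValues α k` for all `k ≥ 2` if some levels contain overlaps `u u v`, `v` a prefix of `u v`,
  such that the length of the image of `v` tends to infinity; so a fixed point of a growing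
  substitution needs to contain only one overlap `u u a`, `a` the first letter of `u`;
* `SmallValues α k` for all even `k` if some levels contain squares `u u` with arbitrarily long
  images; in particular if infinitely many levels have only two letters, with long images (so for
  all fixed points of growing substitutions over two letters);
* `SmallValues α k` for all even `k` if the substitutions commute with taking mirror images up to
  conjugation, and some levels contain mirror symmetric words with arbitrarily long images;
* `SmallValues α k` for all even `k` if the partial quotients are given by a fixed point of a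
  substitution of class `P` of Hof, Knill and Simon, or by a standard episturmian word over any
  alphabet. -/

namespace Pool.Agent.Results.MP_edeaa2_an.SubstitutiveSymmetricPowers

open Pool.Agent.U9.LT Pool.Agent.N759.CFr

theorem result :
    -- `S`-adic words
    (∀ (A : ℕ → Type) (S : ∀ n, A (n + 1) → List (A n)) (y : ∀ n, ℕ → A n),
      (∀ n w, Occurs (y (n + 1)) w → Occurs (y n) (w.flatMap (S n))) →
      ∀ (f : A 0 → ℤ) (α : ℝ), Irrational α → (∀ k, pq α (k + 1) = f (y 0 k)) →
        -- overlaps
        ((∀ K : ℕ, ∃ (n : ℕ) (u v : List (A n)), Occurs (y n) (u ++ (u ++ v)) ∧ v <+: u ++ v ∧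
          0 < (down S n u).length ∧ K ≤ (down S n v).length) →
            ∀ k, 2 ≤ k → SmallValues α k) ∧
        -- squares
        ((∀ K : ℕ, ∃ (n : ℕ) (u : List (A n)), Occurs (y n) (u ++ u) ∧
          K ≤ (down S n u).length) → ∀ k, 2 ≤ k → Even k → SmallValues α k) ∧
        -- two letters
        ((∀ K : ℕ, ∃ n : ℕ, (y n '' Set.Iio 4).ncard ≤ 2 ∧
          ∀ j < 4, K ≤ (down S n [y n j]).length) → ∀ k, 2 ≤ k → Even k → SmallValues α k) ∧
        -- mirror images
        (∀ (θ : ∀ n, A n → A n) (p : ∀ n, List (A n)),
          (∀ n, Compatible (θ n) (θ (n + 1)) (S n) (p n)) →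
          (∀ L : ℕ, ∃ (n : ℕ) (w : List (A n)), Occurs (y n) w ∧ mir (θ n) w = w ∧
            L ≤ (down S n w).length) →
          (∀ a, f (θ 0 a) = f a) → ∀ k, 2 ≤ k → Even k → SmallValues α k)) ∧
    -- fixed points of substitutions of class `P`
    (∀ (A : Type) (S : A → List A) (p : List A) (q : A → List A), p.reverse = p →
      (∀ a, (q a).reverse = q a ∧ S a = p ++ q a) → (∀ a, 2 ≤ (S a).length) →
      ∀ y : ℕ → A, IsImage S y y → ∀ (f : A → ℤ) (α : ℝ), Irrational α →
        (∀ k, pq α (k + 1) = f (y k)) → ∀ k, 2 ≤ k → Even k → SmallValues α k) ∧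
    -- standard episturmian words
    (∀ (A : Type) (_ : DecidableEq A) (c : ℕ → A) (y : ℕ → ℕ → A),
      (∀ n, IsImage (Lm (c n)) (y (n + 1)) (y n)) → (∀ n, ∃ m, n < m ∧ c m ≠ c n) →
      ∀ (f : A → ℤ) (α : ℝ), Irrational α → (∀ k, pq α (k + 1) = f (y 0 k)) →
        ∀ k, 2 ≤ k → Even k → SmallValues α k) := by
  refine ⟨?_, ?_, ?_⟩
  · intro A S y hy f α hα hc
    have sq : (∀ K : ℕ, ∃ (n : ℕ) (u : List (A n)), Occurs (y n) (u ++ u) ∧
          K ≤ (down S n u).length) → ∀ k, 2 ≤ k → Even k → SmallValues α k := by
      intro h
      refine small_square hα (y 0) f hc fun K => ?_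
      obtain ⟨n, u, h1, h2⟩ := h K
      have h3 := down_occurs hy n _ h1
      rw [down_append] at h3
      exact ⟨down S n u, h3, h2⟩
    refine ⟨fun h => ?_, sq, fun h => sq fun K => ?_, ?_⟩
    · refine small_overlap hα (y 0) f hc fun K => ?_
      obtain ⟨n, u, v, h1, h2, h3, h4⟩ := h K
      have h5 := down_occurs hy n _ h1
      have h6 := down_prefix (S := S) n h2
      rw [down_append] at h5 h6
      rw [down_append] at h5
      refine ⟨down S n u, down S n v, h5, ?_, h3, h4⟩
      obtain ⟨w, hw⟩ := h6
      exact ⟨w, by rw [List.append_assoc, hw]⟩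
    · obtain ⟨n, h1, h2⟩ := h K
      obtain ⟨t, u, h3, h4, h5⟩ := two_square (y n) h1
      refine ⟨n, u, h3, ?_⟩
      obtain ⟨v, w, hvw⟩ := List.append_of_mem h4
      have h7 := h2 t h5
      rw [hvw, show v ++ y n t :: w = v ++ ([y n t] ++ w) by rfl, down_append, down_append,
        List.length_append, List.length_append]
      omega
    · intro θ p hcomp hg hf
      refine small_pal hα (y 0) f hc (θ 0) hf fun L => ?_
      obtain ⟨n, w, h1, h2, h3⟩ := hg L
      obtain ⟨u, h4, h5, h6⟩ := exists_pal hcomp hy n w h1 h2
      exact ⟨u, h4, h5, h3.trans h6⟩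
  · intro A S p q hp hq h2 y hy f α hα hc
    exact small_pal hα y f hc id (fun _ => rfl) (fixed_pal S p q hp hq h2 y hy)
  · intro A _ c y hy hc' f α hα hc
    exact small_pal hα (y 0) f hc id (fun _ => rfl) (epi_pal c y hy hc')

end Pool.Agent.Results.MP_edeaa2_an.SubstitutiveSymmetricPowers
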