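import Mathlib
import Pool.Agent.N759.CFr.Tensor

/-! # MP_edeaa2_an: tensor products with a common block of partial quotients

Let `g, h` be real `2 × 2` matrices, `G` a real `n × n` matrix, `n ≥ 1`, and `d = 4 n`. The product of
the `d` linear forms given by the rows of `g ⊗ h ⊗ G` takes at an integer `2 × 2 × n` array `x` the
value `∏_{i,j,k} ∑ g_{ia} h_{jb} G_{kc} x_{abc}`. Suppose that some row of `g` is proportional to
`(α, 1)` and some row of `h` to `(β, 1)`, where `α, β` are irrational and, for every `ℓ`, some block of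
`ℓ` consecutive partial quotients of `α` occurs, directly or reversed, at some place among the partial
quotients of `β`. Then the product takes arbitrarily small values at nonzero integer points. These
can be taken of the form `x_{abc} = X_{ab} δ_{c c₀}` with `det X ≠ 0`, for any fixed `c₀`.

So every counterexample to the conjecture of Cassels and Swinnerton-Dyer of the form `g ⊗ h ⊗ G` has
the property that the lengths of the blocks which occur, directly or reversed, in the continued
fractions of a row of `g` and a row of `h` are bounded. -/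

set_option autoImplicit false

open Matrix Kronecker

namespace Pool.Agent.Results.MP_edeaa2_an.TensorProducts

/-- complete quotients: `completeQuotient α 0 = α`, and each one is the inverse of the fractional
part of the preceding one. -/
noncomputable def completeQuotient (α : ℝ) : ℕ → ℝ
  | 0 => α
  | k + 1 => (Int.fract (completeQuotient α k))⁻¹

/-- the partial quotients (the digits of the continued fraction) of `α` -/
noncomputable def partialQuotient (α : ℝ) (k : ℕ) : ℤ := ⌊completeQuotient α k⌋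

/-- For every `ℓ` some `ℓ` consecutive partial quotients of `α` occur as consecutive partial quotients
of `β`, in the same or in the reversed order. -/
def LongCommonBlocks (α β : ℝ) : Prop :=
  ∀ ℓ : ℕ, ∃ i j : ℕ,
    (∀ r < ℓ, partialQuotient α (i + r) = partialQuotient β (j + r)) ∨
    (∀ r < ℓ, partialQuotient α (i + r) = partialQuotient β (j + (ℓ - 1 - r)))

lemma cq_eq (α : ℝ) (k : ℕ) : completeQuotient α k = Pool.Agent.N759.CFr.cq α k := by
  induction k with
  | zero => rfl
  | succ k ih => rw [completeQuotient, ih]; rfl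

lemma pq_eq (α : ℝ) (k : ℕ) : partialQuotient α k = Pool.Agent.N759.CFr.pq α k := by
  rw [partialQuotient, cq_eq]; rfl

/-- the matrix with its row `i₀` first -/
noncomputable def sw (g : Matrix (Fin 2) (Fin 2) ℝ) (i₀ : Fin 2) : Matrix (Fin 2) (Fin 2) ℝ :=
  g.submatrix (Equiv.swap 0 i₀) id

lemma prod_sw (g h X : Matrix (Fin 2) (Fin 2) ℝ) (i₀ j₀ : Fin 2) :
    ∏ i, ∏ j, (sw g i₀ * X * (sw h j₀)ᵀ) i j = ∏ i, ∏ j, (g * X * hᵀ) i j := by
  have h1 : ∀ i j, (sw g i₀ * X * (sw h j₀)ᵀ) i j
      = (g * X * hᵀ) (Equiv.swap 0 i₀ i) (Equiv.swap 0 j₀ j) := by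
    intro i j
    simp [sw, Matrix.mul_apply]
  simp only [h1]
  rw [Equiv.prod_comp (Equiv.swap 0 i₀) (fun i => ∏ j, (g * X * hᵀ) i (Equiv.swap 0 j₀ j))]
  refine Finset.prod_congr rfl fun i _ => ?_
  exact Equiv.prod_comp (Equiv.swap 0 j₀) (fun j => (g * X * hᵀ) i j)

theorem result (α β : ℝ) (hα : Irrational α) (hβ : Irrational β) (hc : LongCommonBlocks α β)
    (g h : Matrix (Fin 2) (Fin 2) ℝ) (i₀ j₀ : Fin 2) (hg : g i₀ 0 = α * g i₀ 1)
    (hh : h j₀ 0 = β * h j₀ 1) (n : ℕ) (hn : 0 < n) (G : Matrix (Fin n) (Fin n) ℝ) (c₀ : Fin n)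
    (ε : ℝ) (hε : 0 < ε) :
    ∃ X : Matrix (Fin 2) (Fin 2) ℤ, X.det ≠ 0 ∧
      ∃ x : (Fin 2 × Fin 2) × Fin n → ℤ, x ≠ 0 ∧
        (∀ a b c, x ((a, b), c) = if c = c₀ then X a b else 0) ∧
        |∏ i, (((g ⊗ₖ h) ⊗ₖ G) *ᵥ fun j => (x j : ℝ)) i| < ε := by
  classical
  set K : ℝ := |∏ k, G k c₀| ^ 4 with hK
  have hK0 : 0 ≤ K := by positivity
  obtain ⟨X, hX, hX2⟩ := Pool.Agent.N759.CFr.core hα hβ (fun ℓ => by
      obtain ⟨i, j, hij⟩ := hc ℓ
      simp only [pq_eq] at hij
      exact ⟨i, j, hij⟩) (sw g i₀) (sw h j₀) (by simpa [sw] using hg) (by simpa [sw] using hh)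
    (min 1 (ε / (K + 1))) (by positivity)
  rw [prod_sw] at hX2
  refine ⟨X, hX, fun p => if p.2 = c₀ then X p.1.1 p.1.2 else 0, fun h0 => hX ?_,
    fun a b c => rfl, ?_⟩
  · have h1 : X = 0 := by
      ext a b
      simpa using congrFun h0 ((a, b), c₀)
    rw [h1, Matrix.det_zero]
  · set P : ℝ := ∏ i, ∏ j, (g * X.map (Int.cast : ℤ → ℝ) * hᵀ) i j with hP
    have hval : ∀ i : (Fin 2 × Fin 2) × Fin n, (((g ⊗ₖ h) ⊗ₖ G) *ᵥ
        fun j => (((if j.2 = c₀ then X j.1.1 j.1.2 else 0 : ℤ)) : ℝ)) i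
        = (g * X.map (Int.cast : ℤ → ℝ) * hᵀ) i.1.1 i.1.2 * G i.2 c₀ := by
      rintro ⟨⟨i, j⟩, k⟩
      simp only [mulVec, dotProduct, Fintype.sum_prod_type, kroneckerMap_apply, Fin.sum_univ_two,
        Matrix.mul_apply, Matrix.map_apply, Matrix.transpose_apply]
      simp only [Int.cast_ite, Int.cast_zero, mul_ite, mul_zero, Finset.sum_ite_eq',
        Finset.mem_univ, if_true]
      ring
    have hprod : ∏ i : (Fin 2 × Fin 2) × Fin n, (((g ⊗ₖ h) ⊗ₖ G) *ᵥ
        fun j => (((if j.2 = c₀ then X j.1.1 j.1.2 else 0 : ℤ)) : ℝ)) i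
        = P ^ n * (∏ k, G k c₀) ^ 4 := by
      rw [Finset.prod_congr rfl fun i _ => hval i, Finset.prod_mul_distrib]
      congr 1
      · rw [Fintype.prod_prod_type]
        simp only [Finset.prod_const, Finset.card_univ, Fintype.card_fin]
        rw [Finset.prod_pow, Fintype.prod_prod_type]
      · rw [Fintype.prod_prod_type]
        have h9 : ∀ x : Fin 2 × Fin 2, (∏ y : Fin n, G (x, y).2 c₀) = ∏ k, G k c₀ := fun _ => rfl
        rw [Finset.prod_congr rfl fun x _ => h9 x, Finset.prod_const, Finset.card_univ]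
        simp
    rw [hprod, abs_mul, abs_pow, abs_pow, ← hK]
    have h1 : |P| < 1 := lt_of_lt_of_le hX2 (min_le_left _ _)
    have h2 : |P| < ε / (K + 1) := lt_of_lt_of_le hX2 (min_le_right _ _)
    have h3 : |P| ^ n ≤ |P| := pow_le_of_le_one (abs_nonneg _) h1.le (by omega)
    rw [lt_div_iff₀ (by linarith)] at h2
    have h4 : |P| ^ n * K ≤ |P| * K := mul_le_mul_of_nonneg_right h3 hK0
    have h5 : 0 ≤ |P| := abs_nonneg _
    nlinarith

end Pool.Agent.Results.MP_edeaa2_an.TensorProducts
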